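import Pool.Agent.Y497.HD.Map

/-!
# The universal map multiplies the dimension of all large sets by at least `m / n`
-/

set_option autoImplicit false

namespace Pool.Agent.Y497.HD

open Set Filter Topology MeasureTheory
open scoped ENNReal NNReal
open Pool.Agent.Results.MP_2d1133_lc.ContinuousImages (fl dg dg_range abs_sub_le_of_fl)

theorem dimH_le_of_coholder {X Y : Type*} [MetricSpace X] [MetricSpace Y] {F : X → Y} {E : Set X}
    {K r : ℝ} (hK : 0 < K) (hr : 0 < r)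
    (hF : ∀ x ∈ E, ∀ y ∈ E, dist x y ≤ K * dist (F x) (F y) ^ r) :
    dimH E ≤ dimH (F '' E) / ENNReal.ofReal r := by
  classical
  rcases E.eq_empty_or_nonempty with hemp | ⟨x0, hx0⟩
  · rw [hemp, dimH_empty]
    exact bot_le
  have : Nonempty X := ⟨x0⟩
  have hinj : InjOn F E := by
    intro x hx y hy hxy
    have h1 := hF x hx y hy
    rw [hxy, dist_self, Real.zero_rpow hr.ne', mul_zero] at h1
    exact dist_le_zero.mp h1
  let G : Y → X := Function.invFunOn F E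
  have hg : ∀ x ∈ E, G (F x) = x := fun x hx => hinj.leftInvOn_invFunOn hx
  let r' : ℝ≥0 := ⟨r, hr.le⟩
  have hH : HolderOnWith ⟨K, hK.le⟩ r' G (F '' E) := by
    rintro _ ⟨x, hx, rfl⟩ _ ⟨y, hy, rfl⟩
    rw [hg x hx, hg y hy, edist_dist, edist_dist]
    have h1 := hF x hx y hy
    have h2 : ENNReal.ofReal (dist x y) ≤ ENNReal.ofReal (K * dist (F x) (F y) ^ r) :=
      ENNReal.ofReal_le_ofReal h1
    refine h2.trans (le_of_eq ?_)
    have h4 : ENNReal.ofReal (dist (F x) (F y) ^ r) = ENNReal.ofReal (dist (F x) (F y)) ^ r :=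
      (ENNReal.ofReal_rpow_of_nonneg dist_nonneg hr.le).symm
    rw [ENNReal.ofReal_mul hK.le, h4]
    congr 1
    exact ENNReal.ofReal_eq_coe_nnreal hK.le
  have hr' : 0 < r' := hr
  have h1 := hH.dimH_image_le hr'
  have h2 : G '' (F '' E) = E := by
    rw [image_image]
    have : EqOn (fun x => G (F x)) id E := hg
    rw [this.image_eq, image_id]
  rw [h2] at h1
  have h3 : (r' : ℝ≥0∞) = ENNReal.ofReal r := (ENNReal.ofReal_eq_coe_nnreal _).symm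
  rwa [h3] at h1

theorem poly_bound {ρ : ℝ} (h0 : 0 < ρ) (h1 : ρ < 1) :
    ∃ C : ℝ, 0 < C ∧ ∀ t : ℕ, ρ ^ t * ((t : ℝ) + 2) ^ 3 ≤ C := by
  have hs := summable_pow_mul_geometric_of_norm_lt_one 3
    (r := ρ) (by rw [Real.norm_of_nonneg h0.le]; exact h1)
  obtain ⟨C, hC⟩ := hs.tendsto_atTop_zero.bddAbove_range
  refine ⟨max 1 (C / ρ ^ 2), by positivity, fun t => ?_⟩
  refine le_trans ?_ (le_max_right _ _)
  rw [le_div_iff₀ (by positivity)]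
  have h2 : (((t + 2 : ℕ) : ℝ)) ^ 3 * ρ ^ (t + 2) ≤ C := hC ⟨t + 2, rfl⟩
  push_cast at h2
  calc ρ ^ t * ((t : ℝ) + 2) ^ 3 * ρ ^ 2 = ((t : ℝ) + 2) ^ 3 * ρ ^ (t + 2) := by
        rw [pow_add]; ring
    _ ≤ C := h2

/-- The map is co-Hoelder with all exponents less than `m / n` on the pieces. -/
theorem coholder {n m : ℕ} (hn : 0 < n) (hm : 0 < m) {a : ℝ} (ha : (n : ℝ) / m < a) :
    ∃ K : ℝ, 0 < K ∧ ∀ (j₀ j : ℕ), j₀ ≤ j → ∀ (x y : Fin n → ℝ), x ∈ KK j₀ → y ∈ KK j₀ →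
      (∀ i, fl j (x i) = fl j (y i)) → (∀ k < j₀, ∀ i, sig k (x i) = sig k (y i)) →
      dist x y ≤ K * dist (FF hn m x) (FF hn m y) ^ a⁻¹ := by
  have hn' : (0 : ℝ) < n := by exact_mod_cast hn
  have hm' : (0 : ℝ) < m := by exact_mod_cast hm
  have ha0 : 0 < a := lt_trans (by positivity) ha
  set ε : ℝ := a * m / n - 1 with hε
  have hε0 : 0 < ε := by
    rw [div_lt_iff₀ hm'] at ha
    rw [hε, sub_pos, lt_div_iff₀ hn']
    linarith
  have hρ0 : (0 : ℝ) < (1 / 2 : ℝ) ^ ε := by positivity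
  have hρ1 : (1 / 2 : ℝ) ^ ε < 1 := Real.rpow_lt_one (by norm_num) (by norm_num) hε0
  obtain ⟨C, hC0, hC⟩ := poly_bound hρ0 hρ1
  refine ⟨(2 ^ a * C) ^ a⁻¹, by positivity, ?_⟩
  intro j₀ j hj x y hx hy hfl hlow
  by_cases hxy : x = y
  · rw [hxy, dist_self]
    positivity
  obtain ⟨B, h1, h2⟩ := first_bit hn hm hj hx hy hfl hlow hxy
  set D := dist (FF hn m x) (FF hn m y) with hD
  have hD0 : 0 ≤ D := dist_nonneg
  refine h1.trans ?_
  rw [← Real.mul_rpow (by positivity) hD0]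
  have h3 : ((1 / 2 : ℝ) ^ (B / n)) = (((1 / 2 : ℝ) ^ (B / n)) ^ a) ^ a⁻¹ := by
    rw [← Real.rpow_mul (by positivity), mul_inv_cancel₀ ha0.ne', Real.rpow_one]
  rw [h3]
  apply Real.rpow_le_rpow (by positivity) _ (by positivity)
  set k := B / n with hk
  set t := B / m with ht
  have hkt : (t : ℝ) * m / n - 1 ≤ k := by
    have h4 : (B : ℝ) < (k + 1) * n := by
      have : B < (k + 1) * n := by
        rw [hk, mul_comm]
        exact Nat.lt_mul_div_succ B hn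
      exact_mod_cast this
    have h5 : (t : ℝ) * m ≤ B := by
      have : t * m ≤ B := Nat.div_mul_le_self B m
      exact_mod_cast this
    rw [sub_le_iff_le_add, div_le_iff₀ hn']
    linarith
  have h6 : ((1 / 2 : ℝ) ^ k) ^ a = (1 / 2 : ℝ) ^ ((k : ℝ) * a) := by
    rw [← Real.rpow_natCast, ← Real.rpow_mul (by norm_num)]
  rw [h6]
  have h7 : (1 / 2 : ℝ) ^ ((k : ℝ) * a) ≤ (1 / 2 : ℝ) ^ (((t : ℝ) * m / n - 1) * a) := by
    apply Real.rpow_le_rpow_of_exponent_ge (by norm_num) (by norm_num)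
    exact mul_le_mul_of_nonneg_right hkt ha0.le
  have h8 : ((t : ℝ) * m / n - 1) * a = -a + ((t : ℝ) + ε * t) := by
    rw [hε]
    field_simp
    ring
  have h9 : (1 / 2 : ℝ) ^ (((t : ℝ) * m / n - 1) * a) =
      2 ^ a * ((1 / 2 : ℝ) ^ t * ((1 / 2 : ℝ) ^ ε) ^ t) := by
    rw [h8, Real.rpow_add (by norm_num), Real.rpow_add (by norm_num), Real.rpow_natCast,
      Real.rpow_mul (by norm_num), Real.rpow_natCast]
    congr 1
    rw [one_div, Real.inv_rpow (by norm_num), Real.rpow_neg (by norm_num), inv_inv]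
  rw [h9] at h7
  refine h7.trans ?_
  have ht2 : (0 : ℝ) < ((t : ℝ) + 2) ^ 3 := by positivity
  have h10 : (1 / 2 : ℝ) ^ t * ((1 / 2 : ℝ) ^ ε) ^ t ≤ C * D := by
    calc (1 / 2 : ℝ) ^ t * ((1 / 2 : ℝ) ^ ε) ^ t =
          (((1 / 2 : ℝ) ^ ε) ^ t * ((t : ℝ) + 2) ^ 3) * ((1 / 2 : ℝ) ^ t / ((t : ℝ) + 2) ^ 3) := by
          field_simp
      _ ≤ C * D := mul_le_mul (hC t) h2 (by positivity) hC0.le
  calc (2 : ℝ) ^ a * ((1 / 2 : ℝ) ^ t * ((1 / 2 : ℝ) ^ ε) ^ t) ≤ 2 ^ a * (C * D) :=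
        mul_le_mul_of_nonneg_left h10 (by positivity)
    _ = 2 ^ a * C * D := by ring

/-- The pieces. -/
def Good {n : ℕ} (p : ℕ × ℕ × (Fin n → ℤ)) : Prop :=
  p.1 ≤ p.2.1 ∧ ∀ k < p.1, ∀ i, ∀ u u' : ℝ, fl p.2.1 u = p.2.2 i → fl p.2.1 u' = p.2.2 i →
    sig k u = sig k u'

/-- The pieces. -/
def PP {n : ℕ} (p : ℕ × ℕ × (Fin n → ℤ)) : Set (Fin n → ℝ) :=
  {y | Good p ∧ y ∈ KK p.1 ∧ ∀ i, fl p.2.1 (y i) = p.2.2 i}

theorem eventually_sig {k : ℕ} {u : ℝ} (hu : u ∉ Bad k) :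
    ∀ᶠ j : ℕ in atTop, ∀ v : ℝ, fl j v = fl j u → sig k v = sig k u := by
  obtain ⟨ε, hε, h1⟩ := sig_const hu
  have h2 : Tendsto (fun k : ℕ => (1 / 2 : ℝ) ^ k) atTop (𝓝 0) :=
    tendsto_pow_atTop_nhds_zero_of_lt_one (by norm_num) (by norm_num)
  filter_upwards [h2.eventually_lt_const hε] with j hj v hv
  exact h1 v (lt_of_le_of_lt (abs_sub_le_of_fl hv) hj)

theorem cover {n : ℕ} (x : Fin n → ℝ)
    (h1 : ∀ i, ¬ ∀ N : ℕ, ∃ k ≥ N, x i ∈ {u : ℝ | ∃ m : ℤ, |u - m / 2 ^ (k + 1)| < gam k})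
    (h2 : ∀ i k, x i ∉ Bad k) : ∃ p, x ∈ PP p := by
  have h3 : ∀ i, ∃ N : ℕ, ∀ k ≥ N, ∀ m : ℤ, gam k ≤ |x i - m / 2 ^ (k + 1)| := by
    intro i
    have := h1 i
    push Not at this
    obtain ⟨N, hN⟩ := this
    refine ⟨N, fun k hk m => ?_⟩
    by_contra hc
    push Not at hc
    exact hN k hk ⟨m, hc⟩
  choose N hN using h3
  set j₀ := Finset.univ.sup N with hj₀
  have h4 : x ∈ KK j₀ := by
    intro k hk i m
    exact hN i k (le_trans (Finset.le_sup (Finset.mem_univ i)) hk) m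
  have h5 : ∀ᶠ j : ℕ in atTop, j₀ ≤ j ∧ ∀ k ∈ Finset.range j₀, ∀ i, ∀ v : ℝ,
      fl j v = fl j (x i) → sig k v = sig k (x i) := by
    refine (eventually_ge_atTop j₀).and ?_
    rw [Filter.eventually_all_finset]
    intro k _
    rw [Filter.eventually_all]
    intro i
    exact eventually_sig (h2 i k)
  obtain ⟨j, hj1, hj2⟩ := h5.exists
  refine ⟨(j₀, j, fun i => fl j (x i)), ⟨hj1, fun k hk i u u' hu hu' => ?_⟩, h4, fun i => rfl⟩
  rw [hj2 k (Finset.mem_range.2 hk) i u hu, hj2 k (Finset.mem_range.2 hk) i u' hu']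

theorem main_a {n m : ℕ} (hn : 0 < n) (hm : 0 < m) {a : ℝ} (ha : (n : ℝ) / m < a)
    (E : Set (Fin n → ℝ)) (hE : ((n - 1 : ℕ) : ℝ≥0∞) < dimH E) :
    dimH E ≤ ENNReal.ofReal a * dimH (FF hn m '' E) := by
  have hn' : (0 : ℝ) < n := by exact_mod_cast hn
  have hm' : (0 : ℝ) < m := by exact_mod_cast hm
  have ha0 : 0 < a := lt_trans (by positivity) ha
  obtain ⟨K, hK, hKb⟩ := coholder hn hm ha
  have hpiece : ∀ p, dimH (E ∩ PP p) ≤ ENNReal.ofReal a * dimH (FF hn m '' E) := by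
    intro p
    have h1 := dimH_le_of_coholder (F := FF hn m) (E := E ∩ PP p) hK (inv_pos.2 ha0) ?_
    · refine h1.trans ?_
      rw [ENNReal.ofReal_inv_of_pos ha0, div_eq_mul_inv, inv_inv, mul_comm]
      exact mul_le_mul_right (dimH_mono (image_mono inter_subset_left)) _
    · rintro x ⟨-, hg, hx1, hx2⟩ y ⟨-, -, hy1, hy2⟩
      refine hKb p.1 p.2.1 hg.1 x y hx1 hy1 (fun i => by rw [hx2, hy2]) (fun k hk i => ?_)
      exact hg.2 k hk i _ _ (hx2 i) (hy2 i)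
  have hcov : E ⊆ (⋃ i : Fin n, {x : Fin n → ℝ | ∀ N : ℕ, ∃ k ≥ N, x i ∈
        {u : ℝ | ∃ m : ℤ, |u - m / 2 ^ (k + 1)| < gam k}}) ∪
      (⋃ q : Fin n × ℕ, {x : Fin n → ℝ | x q.1 ∈ Bad q.2}) ∪
      ⋃ p : ℕ × ℕ × (Fin n → ℤ), E ∩ PP p := by
    intro x hx
    by_cases h1 : ∃ i, ∀ N : ℕ, ∃ k ≥ N, x i ∈ {u : ℝ | ∃ m : ℤ, |u - m / 2 ^ (k + 1)| < gam k}
    · obtain ⟨i, hi⟩ := h1
      exact Or.inl (Or.inl (mem_iUnion.2 ⟨i, hi⟩))
    by_cases h2 : ∃ i k, x i ∈ Bad k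
    · obtain ⟨i, k, hi⟩ := h2
      exact Or.inl (Or.inr (mem_iUnion.2 ⟨(i, k), hi⟩))
    right
    obtain ⟨p, hp⟩ := cover x (fun i hi => h1 ⟨i, hi⟩) (fun i k hi => h2 ⟨i, k, hi⟩)
    exact mem_iUnion.2 ⟨p, hx, hp⟩
  have h1 := dimH_mono hcov
  rw [dimH_union, dimH_union, dimH_iUnion, dimH_iUnion, dimH_iUnion] at h1
  have h2 : dimH E ≤ max ((n - 1 : ℕ) : ℝ≥0∞) (ENNReal.ofReal a * dimH (FF hn m '' E)) := by
    refine h1.trans (max_le_max (max_le ?_ ?_) ?_)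
    · exact iSup_le fun i => dimH_thin i thin_grid
    · exact iSup_le fun q => dimH_bad q.1 q.2
    · exact iSup_le hpiece
  rcases le_max_iff.1 h2 with h3 | h3
  · exact absurd h3 (not_le.2 hE)
  · exact h3

theorem main {n m : ℕ} (hn : 0 < n) (hm : 0 < m) (E : Set (Fin n → ℝ))
    (hE : ((n - 1 : ℕ) : ℝ≥0∞) < dimH E) :
    (m / n : ℝ≥0∞) * dimH E ≤ dimH (FF hn m '' E) := by
  have hn' : (0 : ℝ) < n := by exact_mod_cast hn
  have hm' : (0 : ℝ) < m := by exact_mod_cast hm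
  set D := dimH (FF hn m '' E) with hD
  have hDtop : D ≠ ∞ := by
    have h1 : D ≤ dimH (univ : Set (Fin m → ℝ)) := dimH_mono (subset_univ _)
    rw [Real.dimH_univ_pi_fin] at h1
    exact ne_top_of_le_ne_top (ENNReal.natCast_ne_top m) h1
  have h1 : dimH E ≤ ENNReal.ofReal ((n : ℝ) / m) * D := by
    have h2 : Tendsto (fun l : ℕ => ENNReal.ofReal ((n : ℝ) / m + 1 / ((l : ℝ) + 1)) * D) atTop
        (𝓝 (ENNReal.ofReal ((n : ℝ) / m + 0) * D)) := by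
      refine ENNReal.Tendsto.mul_const ?_ (Or.inr hDtop)
      exact ENNReal.tendsto_ofReal (tendsto_const_nhds.add tendsto_one_div_add_atTop_nhds_zero_nat)
    rw [add_zero] at h2
    refine ge_of_tendsto' h2 fun l => ?_
    exact main_a hn hm (lt_add_of_pos_right _ (by positivity)) E hE
  have h3 : (m / n : ℝ≥0∞) * ENNReal.ofReal ((n : ℝ) / m) = 1 := by
    rw [ENNReal.ofReal_div_of_pos hm', ENNReal.ofReal_natCast, ENNReal.ofReal_natCast]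
    rw [ENNReal.div_eq_inv_mul, ENNReal.div_eq_inv_mul]
    have e1 : (n : ℝ≥0∞) ≠ 0 := by exact_mod_cast hn.ne'
    have e2 : (m : ℝ≥0∞) ≠ 0 := by exact_mod_cast hm.ne'
    calc (n : ℝ≥0∞)⁻¹ * m * ((m : ℝ≥0∞)⁻¹ * n) = ((n : ℝ≥0∞) * (n : ℝ≥0∞)⁻¹) *
          ((m : ℝ≥0∞) * (m : ℝ≥0∞)⁻¹) := by ring
      _ = 1 := by
        rw [ENNReal.mul_inv_cancel e1 (ENNReal.natCast_ne_top n),
          ENNReal.mul_inv_cancel e2 (ENNReal.natCast_ne_top m), one_mul]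
  calc (m / n : ℝ≥0∞) * dimH E ≤ (m / n : ℝ≥0∞) * (ENNReal.ofReal ((n : ℝ) / m) * D) :=
        mul_le_mul_right h1 _
    _ = D := by rw [← mul_assoc, h3, one_mul]

end Pool.Agent.Y497.HD
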