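import Pool.Agent.Y497.HD.Stair

/-!
# The universal map
-/

set_option autoImplicit false

namespace Pool.Agent.Y497.HD

open Set Filter Topology MeasureTheory
open scoped ENNReal NNReal
open Pool.Agent.Results.MP_2d1133_lc.ContinuousImages (fl dg dg_range abs_sub_le_of_fl)

/-- The distance to `2 ℤ + 1/2`. -/
noncomputable def tau (v : ℝ) : ℝ := ‖((v - 1 / 2 : ℝ) : AddCircle (2 : ℝ))‖

theorem tau_cont : Continuous tau := by
  unfold tau
  exact ((AddCircle.continuous_mk' 2).comp (continuous_id.sub continuous_const)).norm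

theorem tau_rep (v : ℝ) : ∃ (r : ℤ) (e : ℝ), (e = 1 ∨ e = -1) ∧
    v = 1 / 2 + 2 * r + e * tau v := by
  have h1 : tau v = |(v - 1 / 2) - round ((2 : ℝ)⁻¹ * (v - 1 / 2)) * 2| := AddCircle.norm_eq 2
  rcases abs_cases ((v - 1 / 2) - round ((2 : ℝ)⁻¹ * (v - 1 / 2)) * 2) with h | h
  · refine ⟨round ((2 : ℝ)⁻¹ * (v - 1 / 2)), 1, Or.inl rfl, ?_⟩
    rw [h1, h.1]
    ring
  · refine ⟨round ((2 : ℝ)⁻¹ * (v - 1 / 2)), -1, Or.inr rfl, ?_⟩
    rw [h1, h.1]
    ring

theorem tau_eq {v : ℝ} {a : ℤ} {y : ℝ} (h : v - 1 / 2 = 2 * a + y) (hy : |y| ≤ 1) :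
    tau v = |y| := by
  unfold tau
  rw [h, AddCircle.coe_add]
  have h1 : ((2 * (a : ℝ) : ℝ) : AddCircle (2 : ℝ)) = 0 := by
    rw [AddCircle.coe_eq_zero_iff]
    exact ⟨a, by simp [mul_comm]⟩
  rw [h1, zero_add]
  rw [AddCircle.norm_coe_eq_abs_iff 2 (by norm_num)]
  simpa using hy

/-- The smoothed digits. -/
noncomputable def sig (k : ℕ) (u : ℝ) : ℝ :=
  H ((tau (2 ^ (k + 1) * u) - 1 / 2) / (2 ^ (k + 1) * gam k))

theorem sig_cont (k : ℕ) : Continuous (sig k) := by
  unfold sig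
  refine H_cont.comp ?_
  exact ((tau_cont.comp (continuous_const.mul continuous_id)).sub continuous_const).div_const _

theorem sig_range (k : ℕ) (u : ℝ) : 0 ≤ sig k u ∧ sig k u ≤ 1 := H_range _

theorem sig_dg {k : ℕ} {u : ℝ} (h : ∀ m : ℤ, gam k ≤ |u - m / 2 ^ (k + 1)|) :
    sig k u = dg k u := by
  have h2 : (0 : ℝ) < 2 ^ (k + 1) := by positivity
  have hg := gam_pos k
  set v : ℝ := 2 ^ (k + 1) * u with hv
  set δ : ℝ := 2 ^ (k + 1) * gam k with hδ
  have hδ0 : 0 < δ := by positivity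
  have h3 : ∀ m : ℤ, δ ≤ |v - m| := by
    intro m
    have h4 : v - m = 2 ^ (k + 1) * (u - m / 2 ^ (k + 1)) := by
      rw [hv]
      field_simp
    rw [h4, abs_mul, abs_of_pos h2]
    exact mul_le_mul_of_nonneg_left (h m) h2.le
  have hF1 : (fl (k + 1) u : ℝ) ≤ v := Int.floor_le _
  have hF2 : v < (fl (k + 1) u : ℝ) + 1 := Int.lt_floor_add_one _
  have hF := fl_succ k u
  have hd := dg_range k u
  have hcase : dg k u = 0 ∨ dg k u = 1 := by omega
  unfold sig
  rcases hcase with hc | hc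
  · rw [hc, add_zero] at hF
    rw [hF] at hF1 hF2
    push_cast at hF1 hF2
    have h5 := h3 (2 * fl k u)
    have h6 := h3 (2 * fl k u + 1)
    push_cast at h5 h6
    rw [abs_of_nonneg (by linarith)] at h5
    rw [abs_of_nonpos (by linarith)] at h6
    have h7 : tau v = |v - 2 * fl k u - 1 / 2| := by
      apply tau_eq (a := fl k u) (by ring)
      rw [abs_le]
      constructor <;> linarith
    have h8 : tau v ≤ 1 / 2 - δ := by
      rw [h7, abs_le]
      constructor <;> linarith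
    rw [hc, Int.cast_zero]
    apply H_left
    rw [div_le_iff₀ hδ0]
    linarith
  · rw [hc] at hF
    rw [hF] at hF1 hF2
    push_cast at hF1 hF2
    have h5 := h3 (2 * fl k u + 1)
    have h6 := h3 (2 * fl k u + 2)
    push_cast at h5 h6
    rw [abs_of_nonneg (by linarith)] at h5
    rw [abs_of_nonpos (by linarith)] at h6
    have h8 : 1 / 2 + δ ≤ tau v := by
      rcases le_total (v - 2 * fl k u - 1 / 2) 1 with h9 | h9
      · have h7 : tau v = |v - 2 * fl k u - 1 / 2| := by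
          apply tau_eq (a := fl k u) (by ring)
          rw [abs_le]
          constructor <;> linarith
        rw [h7, abs_of_nonneg (by linarith)]
        linarith
      · have h7 : tau v = |v - 2 * fl k u - 5 / 2| := by
          apply tau_eq (a := fl k u + 1) (by push_cast; ring)
          rw [abs_le]
          constructor <;> linarith
        rw [h7, abs_of_nonpos (by linarith)]
        linarith
    rw [hc, Int.cast_one]
    apply H_right
    rw [le_div_iff₀ hδ0]
    linarith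

/-- The set where the smoothed digit of level `k` may fail to be locally constant. -/
def Bad (k : ℕ) : Set ℝ :=
  {u | (tau (2 ^ (k + 1) * u) - 1 / 2) / (2 ^ (k + 1) * gam k) + 1 ∈ NN}

theorem sig_const {k : ℕ} {u : ℝ} (hu : u ∉ Bad k) :
    ∃ ε > 0, ∀ u', |u' - u| < ε → sig k u' = sig k u := by
  obtain ⟨ε, hε, h1⟩ := H_const hu
  have hc : Continuous fun u : ℝ => (tau (2 ^ (k + 1) * u) - 1 / 2) / (2 ^ (k + 1) * gam k) :=
    ((tau_cont.comp (continuous_const.mul continuous_id)).sub continuous_const).div_const _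
  obtain ⟨ε', hε', h2⟩ := Metric.continuous_iff.1 hc u ε hε
  refine ⟨ε', hε', fun u' hu' => ?_⟩
  unfold sig
  apply h1
  have := h2 u' (by rw [Real.dist_eq]; exact hu')
  rwa [Real.dist_eq] at this

theorem bad_sub (k : ℕ) : Bad k ⊆ ⋃ p : ℤ × Bool, {u : ℝ | ∃ s ∈ NN,
    u = (bif p.2 then gam k else -gam k) * s +
      (bif p.2 then (1 / 2 + 2 * p.1 + (1 / 2 - 2 ^ (k + 1) * gam k)) / 2 ^ (k + 1)
        else (1 / 2 + 2 * p.1 - (1 / 2 - 2 ^ (k + 1) * gam k)) / 2 ^ (k + 1))} := by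
  intro u hu
  have h2 : (0 : ℝ) < 2 ^ (k + 1) := by positivity
  have hg := gam_pos k
  obtain ⟨r, e, he, h1⟩ := tau_rep (2 ^ (k + 1) * u)
  set s := (tau (2 ^ (k + 1) * u) - 1 / 2) / (2 ^ (k + 1) * gam k) + 1 with hs
  have h3 : tau (2 ^ (k + 1) * u) = 1 / 2 + 2 ^ (k + 1) * gam k * (s - 1) := by
    rw [hs]
    field_simp
    ring
  have h4 : u = (1 / 2 + 2 * r + e * (1 / 2 + 2 ^ (k + 1) * gam k * (s - 1))) / 2 ^ (k + 1) := by
    rw [← h3, ← h1]
    field_simp
  rw [mem_iUnion]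
  rcases he with he | he
  · refine ⟨(r, true), s, hu, ?_⟩
    simp only [cond_true]
    rw [h4, he]
    field_simp
    ring
  · refine ⟨(r, false), s, hu, ?_⟩
    simp only [cond_false]
    rw [h4, he]
    field_simp
    ring

theorem dimH_bad {n : ℕ} (i : Fin n) (k : ℕ) :
    dimH {x : Fin n → ℝ | x i ∈ Bad k} ≤ ((n - 1 : ℕ) : ℝ≥0∞) := by
  have hg := gam_pos k
  have hg1 : gam k ≤ 1 := by
    unfold gam
    exact pow_le_one₀ (by norm_num) (by norm_num)
  have h1 : {x : Fin n → ℝ | x i ∈ Bad k} ⊆ ⋃ p : ℤ × Bool, {x : Fin n → ℝ | x i ∈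
      {u : ℝ | ∃ s ∈ NN, u = (bif p.2 then gam k else -gam k) * s +
      (bif p.2 then (1 / 2 + 2 * p.1 + (1 / 2 - 2 ^ (k + 1) * gam k)) / 2 ^ (k + 1)
        else (1 / 2 + 2 * p.1 - (1 / 2 - 2 ^ (k + 1) * gam k)) / 2 ^ (k + 1))}} := by
    intro x hx
    obtain ⟨p, hp⟩ := mem_iUnion.1 (bad_sub k hx)
    exact mem_iUnion.2 ⟨p, hp⟩
  refine (dimH_mono h1).trans ?_
  rw [dimH_iUnion]
  apply iSup_le
  intro p
  have h2 := dimH_thin i (thin_NN (α := bif p.2 then gam k else -gam k)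
    (β := (bif p.2 then (1 / 2 + 2 * p.1 + (1 / 2 - 2 ^ (k + 1) * gam k)) / 2 ^ (k + 1)
        else (1 / 2 + 2 * p.1 - (1 / 2 - 2 ^ (k + 1) * gam k)) / 2 ^ (k + 1)))
    (by cases p.2 <;> simp [hg.ne']) (by cases p.2 <;> simp [abs_of_pos hg, hg1]))
  refine (dimH_mono ?_).trans h2
  intro x hx N
  exact ⟨N, le_rfl, hx⟩

/-! ### The map -/

/-- The weights. -/
noncomputable def wt (t : ℕ) : ℝ := (1 / 2 : ℝ) ^ t / ((t : ℝ) + 1) ^ 2

theorem wt_pos (t : ℕ) : 0 < wt t := by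
  unfold wt
  positivity

theorem summable_wt : Summable wt := by
  refine Summable.of_nonneg_of_le (fun k => (wt_pos k).le) (fun k => ?_)
    (summable_geometric_of_lt_one (by norm_num) (by norm_num : (1 / 2 : ℝ) < 1))
  unfold wt
  apply div_le_self (by positivity)
  apply one_le_pow₀
  linarith [Nat.cast_nonneg (α := ℝ) k]

theorem gap (t : ℕ) : (1 / 2 : ℝ) ^ t / ((t : ℝ) + 2) ^ 3 ≤ wt t - ∑' l, wt (l + (t + 1)) := by
  have h1 : HasSum (fun l : ℕ => (1 / 2 : ℝ) ^ (t + 1) / ((t : ℝ) + 2) ^ 2 * (1 / 2 : ℝ) ^ l)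
      ((1 / 2 : ℝ) ^ (t + 1) / ((t : ℝ) + 2) ^ 2 * (1 - 1 / 2)⁻¹) :=
    (hasSum_geometric_of_lt_one (by norm_num) (by norm_num)).mul_left _
  have h2 : ∑' l, wt (l + (t + 1)) ≤
      ∑' l : ℕ, (1 / 2 : ℝ) ^ (t + 1) / ((t : ℝ) + 2) ^ 2 * (1 / 2 : ℝ) ^ l := by
    refine ((summable_nat_add_iff (t + 1)).2 summable_wt).tsum_le_tsum (fun l => ?_) h1.summable
    unfold wt
    have e : (1 / 2 : ℝ) ^ (t + 1) / ((t : ℝ) + 2) ^ 2 * (1 / 2 : ℝ) ^ l =
        (1 / 2 : ℝ) ^ (l + (t + 1)) / ((t : ℝ) + 2) ^ 2 := by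
      rw [pow_add (1 / 2 : ℝ) l (t + 1)]
      ring
    rw [e]
    apply div_le_div_of_nonneg_left (by positivity) (by positivity)
    push_cast
    apply pow_le_pow_left₀ (by positivity)
    linarith [Nat.cast_nonneg (α := ℝ) l]
  rw [h1.tsum_eq] at h2
  have h3 : (1 / 2 : ℝ) ^ (t + 1) / ((t : ℝ) + 2) ^ 2 * (1 - 1 / 2)⁻¹ =
      (1 / 2 : ℝ) ^ t / ((t : ℝ) + 2) ^ 2 := by
    rw [pow_succ]
    norm_num
    ring
  rw [h3] at h2
  have ht : (0 : ℝ) ≤ t := Nat.cast_nonneg t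
  have h4 : (1 / 2 : ℝ) ^ t / ((t : ℝ) + 2) ^ 3 + (1 / 2 : ℝ) ^ t / ((t : ℝ) + 2) ^ 2 ≤ wt t := by
    unfold wt
    rw [div_add_div _ _ (by positivity) (by positivity), div_le_div_iff₀ (by positivity) (by positivity)]
    have hp : (0 : ℝ) < (1 / 2) ^ t := by positivity
    have h5 : (((t : ℝ) + 2) ^ 2 + ((t : ℝ) + 2) ^ 3) * ((t : ℝ) + 1) ^ 2 ≤
        ((t : ℝ) + 2) ^ 3 * ((t : ℝ) + 2) ^ 2 := by
      have h6 : ((t : ℝ) + 2) ^ 3 * ((t : ℝ) + 2) ^ 2 -
          (((t : ℝ) + 2) ^ 2 + ((t : ℝ) + 2) ^ 3) * ((t : ℝ) + 1) ^ 2 =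
          ((t : ℝ) + 2) ^ 2 * ((t : ℝ) ^ 2 + 5 * t + 5) := by ring
      have h7 : 0 ≤ ((t : ℝ) + 2) ^ 2 * ((t : ℝ) ^ 2 + 5 * t + 5) := by positivity
      linarith
    nlinarith [mul_le_mul_of_nonneg_left h5 hp.le]
  linarith

/-- The bit with the number `B`: a smoothed digit of level `B / n` of the coordinate `B % n`. -/
noncomputable def bit {n : ℕ} (hn : 0 < n) (B : ℕ) (x : Fin n → ℝ) : ℝ :=
  sig (B / n) (x ⟨B % n, Nat.mod_lt _ hn⟩)

/-- The universal map. -/
noncomputable def FF {n : ℕ} (hn : 0 < n) (m : ℕ) (x : Fin n → ℝ) (c : Fin m) : ℝ :=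
  ∑' t, bit hn (t * m + c) x * wt t

theorem FF_cont {n : ℕ} (hn : 0 < n) (m : ℕ) : Continuous (FF hn m) := by
  refine continuous_pi fun c => ?_
  unfold FF
  refine continuous_tsum (fun t => ?_) summable_wt (fun t x => ?_)
  · exact ((sig_cont _).comp (continuous_apply _)).mul continuous_const
  · rw [norm_mul, Real.norm_of_nonneg (wt_pos t).le]
    have h1 : 0 ≤ bit hn (t * m + c) x ∧ bit hn (t * m + c) x ≤ 1 := sig_range _ _
    apply mul_le_of_le_one_left (wt_pos t).le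
    rw [Real.norm_of_nonneg h1.1]
    exact h1.2

/-- The points that stay away from the dyadic grids of all levels `k ≥ j`. -/
def KK {n : ℕ} (j : ℕ) : Set (Fin n → ℝ) :=
  {y | ∀ k ≥ j, ∀ i, ∀ m : ℤ, gam k ≤ |y i - m / 2 ^ (k + 1)|}

theorem first_bit {n m : ℕ} (hn : 0 < n) (hm : 0 < m) {j₀ j : ℕ} (hj : j₀ ≤ j) {x y : Fin n → ℝ}
    (hx : x ∈ KK j₀) (hy : y ∈ KK j₀) (hfl : ∀ i, fl j (x i) = fl j (y i))
    (hlow : ∀ k < j₀, ∀ i, sig k (x i) = sig k (y i)) (hxy : x ≠ y) :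
    ∃ B : ℕ, dist x y ≤ (1 / 2 : ℝ) ^ (B / n) ∧
      (1 / 2 : ℝ) ^ (B / m) / (((B / m : ℕ) : ℝ) + 2) ^ 3 ≤ dist (FF hn m x) (FF hn m y) := by
  classical
  have hdgx : ∀ k ≥ j₀, ∀ i, sig k (x i) = dg k (x i) := fun k hk i => sig_dg (hx k hk i)
  have hdgy : ∀ k ≥ j₀, ∀ i, sig k (y i) = dg k (y i) := fun k hk i => sig_dg (hy k hk i)
  have hex : ∃ B, bit hn B x ≠ bit hn B y := by
    obtain ⟨i, hi⟩ := Function.ne_iff.1 hxy
    obtain ⟨k, hk1, hk2, hk3⟩ := exists_first (hfl i) hi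
    refine ⟨k * n + i, ?_⟩
    unfold bit
    have e1 : (k * n + i) / n = k := by
      rw [mul_comm, Nat.mul_add_div hn, Nat.div_eq_of_lt i.2, add_zero]
    have e2 : (k * n + i) % n = i := by
      rw [mul_comm, Nat.mul_add_mod, Nat.mod_eq_of_lt i.2]
    have e3 : (⟨(k * n + i) % n, Nat.mod_lt _ hn⟩ : Fin n) = i := Fin.ext e2
    rw [e3, e1, hdgx k (hj.trans hk1) i, hdgy k (hj.trans hk1) i]
    exact_mod_cast hk3
  have hspec := Nat.find_spec hex
  have hmin : ∀ B' < Nat.find hex, bit hn B' x = bit hn B' y := by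
    intro B' hB'
    have := Nat.find_min hex hB'
    push Not at this
    exact this
  set B := Nat.find hex with hB
  clear_value B
  set k := B / n with hk
  set i : Fin n := ⟨B % n, Nat.mod_lt _ hn⟩ with hi
  have hkB : k * n ≤ B := Nat.div_mul_le_self B n
  have hbx : sig k (x i) ≠ sig k (y i) := hspec
  have hk0 : j₀ ≤ k := by
    by_contra hc
    push Not at hc
    exact hbx (hlow k hc i)
  have hkj : j ≤ k := by
    by_contra hc
    push Not at hc
    apply hbx
    rw [hdgx k hk0 i, hdgy k hk0 i]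
    have h1 : dg k (x i) = dg k (y i) := by
      unfold dg
      rw [fl_le_eq hc.le (hfl i), fl_le_eq (Nat.succ_le_of_lt hc) (hfl i)]
    rw [h1]
  have hlev : ∀ l, j ≤ l → l < k → ∀ i', dg l (x i') = dg l (y i') := by
    intro l hl1 hl2 i'
    have h1 : l * n + i' < B := by
      have h2 : (l + 1) * n ≤ k * n := Nat.mul_le_mul_right n hl2
      have h3 := i'.2
      nlinarith
    have h2 := hmin _ h1
    unfold bit at h2
    have e1 : (l * n + i') / n = l := by
      rw [mul_comm, Nat.mul_add_div hn, Nat.div_eq_of_lt i'.2, add_zero]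
    have e2 : (l * n + i') % n = i' := by
      rw [mul_comm, Nat.mul_add_mod, Nat.mod_eq_of_lt i'.2]
    have e3 : (⟨(l * n + i') % n, Nat.mod_lt _ hn⟩ : Fin n) = i' := Fin.ext e2
    rw [e3, e1, hdgx l (hj.trans hl1) i', hdgy l (hj.trans hl1) i'] at h2
    exact_mod_cast h2
  have hfk : ∀ l, j ≤ l → l ≤ k → ∀ i', fl l (x i') = fl l (y i') := by
    intro l hl
    induction l, hl using Nat.le_induction with
    | base => intro _ i'; exact hfl i'
    | succ l hl ih =>
      intro h1 i'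
      rw [fl_succ, fl_succ, ih (by omega) i', hlev l hl (by omega) i']
  refine ⟨B, ?_, ?_⟩
  · rw [dist_pi_le_iff (by positivity)]
    intro i'
    rw [Real.dist_eq]
    exact abs_sub_le_of_fl (hfk k hkj le_rfl i')
  · set t := B / m with ht
    set c : Fin m := ⟨B % m, Nat.mod_lt _ hm⟩ with hc
    have hBt : t * m + c = B := by
      rw [ht, hc]
      exact Nat.div_add_mod' B m
    refine le_trans ?_ (dist_le_pi_dist (FF hn m x) (FF hn m y) c)
    rw [Real.dist_eq]
    have h1 := wsum_split summable_wt (fun t => (wt_pos t).le)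
      (a := fun t => bit hn (t * m + c) x) (b := fun t => bit hn (t * m + c) y)
      (fun t => sig_range _ _) (fun t => sig_range _ _) (t + 1)
    have h2 : ∑ s ∈ Finset.range (t + 1), (bit hn (s * m + c) x - bit hn (s * m + c) y) * wt s =
        (bit hn B x - bit hn B y) * wt t := by
      rw [Finset.sum_range_succ, Finset.sum_eq_zero, zero_add, hBt]
      intro s hs
      have hs' := Finset.mem_range.1 hs
      have h3 : s * m + c < B := by
        have h4 : (s + 1) * m ≤ t * m := Nat.mul_le_mul_right m hs'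
        have h5 := c.2
        nlinarith
      rw [hmin _ h3, sub_self, zero_mul]
    rw [h2] at h1
    have h3 : |(bit hn B x - bit hn B y) * wt t| = wt t := by
      have h4 : |bit hn B x - bit hn B y| = 1 := by
        have h5 : bit hn B x = dg k (x i) := hdgx k hk0 i
        have h6 : bit hn B y = dg k (y i) := hdgy k hk0 i
        have h7 := dg_range k (x i)
        have h8 := dg_range k (y i)
        have h9 : dg k (x i) ≠ dg k (y i) := by
          intro h10
          apply hspec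
          rw [h5, h6, h10]
        rw [h5, h6]
        have h11 : dg k (x i) - dg k (y i) = 1 ∨ dg k (x i) - dg k (y i) = -1 := by omega
        rcases h11 with h11 | h11
        · have h12 : (dg k (x i) : ℝ) - dg k (y i) = 1 := by exact_mod_cast h11
          rw [h12, abs_one]
        · have h12 : (dg k (x i) : ℝ) - dg k (y i) = -1 := by exact_mod_cast h11
          rw [h12, abs_neg, abs_one]
      rw [abs_mul, h4, one_mul, abs_of_pos (wt_pos t)]
    have h4 := gap t
    have h5 : |(bit hn B x - bit hn B y) * wt t| -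
        |FF hn m x c - FF hn m y c - (bit hn B x - bit hn B y) * wt t| ≤
        |FF hn m x c - FF hn m y c| := by
      have h6 := abs_sub_abs_le_abs_sub ((bit hn B x - bit hn B y) * wt t)
        ((bit hn B x - bit hn B y) * wt t - (FF hn m x c - FF hn m y c))
      rw [sub_sub_cancel, abs_sub_comm ((bit hn B x - bit hn B y) * wt t)] at h6
      exact h6
    rw [h3] at h5
    have h7 : |FF hn m x c - FF hn m y c - (bit hn B x - bit hn B y) * wt t| ≤
        ∑' l, wt (l + (t + 1)) := h1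
    linarith

end Pool.Agent.Y497.HD
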