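import Pool.Agent.Y497.HD.Thin

/-!
# A continuous staircase function whose set of non-constancy is thin
-/

set_option autoImplicit false

namespace Pool.Agent.Y497.HD

open Set Filter Topology MeasureTheory
open scoped ENNReal NNReal
open Pool.Agent.Results.MP_2d1133_lc.ContinuousImages (fl dg dg_range abs_sub_le_of_fl)

/-! ### Sums with weights -/

theorem wsum_split {W : ℕ → ℝ} (hW : Summable W) (hW0 : ∀ t, 0 ≤ W t) {a b : ℕ → ℝ}
    (ha : ∀ t, 0 ≤ a t ∧ a t ≤ 1) (hb : ∀ t, 0 ≤ b t ∧ b t ≤ 1) (k : ℕ) :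
    |(∑' t, a t * W t) - (∑' t, b t * W t) - ∑ t ∈ Finset.range k, (a t - b t) * W t| ≤
      ∑' t, W (t + k) := by
  have hsa : ∀ {c : ℕ → ℝ}, (∀ t, 0 ≤ c t ∧ c t ≤ 1) → Summable (fun t => c t * W t) := by
    intro c hc
    refine Summable.of_nonneg_of_le (fun t => mul_nonneg (hc t).1 (hW0 t)) (fun t => ?_) hW
    exact mul_le_of_le_one_left (hW0 t) (hc t).2
  have hu : Summable (fun t => (a t - b t) * W t) := by
    have := (hsa ha).sub (hsa hb)
    refine this.congr fun t => ?_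
    ring
  have h1 : (∑' t, a t * W t) - (∑' t, b t * W t) = ∑' t, (a t - b t) * W t := by
    rw [← (hsa ha).tsum_sub (hsa hb)]
    congr 1
    funext t
    ring
  have h2 := hu.sum_add_tsum_nat_add k
  rw [h1, ← h2, add_sub_cancel_left]
  have h3 : Summable (fun t => W (t + k)) := (summable_nat_add_iff k).2 hW
  have h4 : ∀ t, ‖(a (t + k) - b (t + k)) * W (t + k)‖ ≤ W (t + k) := by
    intro t
    rw [norm_mul, Real.norm_eq_abs, Real.norm_of_nonneg (hW0 _)]
    apply mul_le_of_le_one_left (hW0 _)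
    rw [abs_le]
    have h5 := ha (t + k)
    have h6 := hb (t + k)
    constructor <;> linarith [h5.1, h5.2, h6.1, h6.2]
  have h5 := tsum_of_norm_bounded h3.hasSum h4
  rwa [Real.norm_eq_abs] at h5

/-! ### Dyadic floors -/

theorem fl_succ (k : ℕ) (u : ℝ) : fl (k + 1) u = 2 * fl k u + dg k u := by
  unfold dg
  ring

theorem fl_le_eq {j k : ℕ} (h : j ≤ k) {u v : ℝ} (he : fl k u = fl k v) : fl j u = fl j v := by
  induction k with
  | zero =>
    have : j = 0 := by omega
    rw [this]; exact he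
  | succ k ih =>
    rcases Nat.eq_or_lt_of_le h with h1 | h1
    · rw [h1]; exact he
    · apply ih (by omega)
      rw [fl_succ, fl_succ] at he
      have h2 := dg_range k u
      have h3 := dg_range k v
      omega

theorem fl_mono (k : ℕ) {u v : ℝ} (h : u ≤ v) : fl k u ≤ fl k v := by
  unfold fl
  apply Int.floor_le_floor
  exact mul_le_mul_of_nonneg_left h (by positivity)

theorem exists_first {j : ℕ} {u v : ℝ} (h0 : fl j u = fl j v) (hne : u ≠ v) :
    ∃ k ≥ j, fl k u = fl k v ∧ dg k u ≠ dg k v := by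
  classical
  have hex : ∃ k, fl k u ≠ fl k v := by
    by_contra hcon
    push Not at hcon
    apply hne
    have h1 : ∀ k : ℕ, |u - v| ≤ (1 / 2) ^ k := fun k => abs_sub_le_of_fl (hcon k)
    have h2 : Tendsto (fun k : ℕ => (1 / 2 : ℝ) ^ k) atTop (𝓝 0) :=
      tendsto_pow_atTop_nhds_zero_of_lt_one (by norm_num) (by norm_num)
    have h3 : |u - v| ≤ 0 := ge_of_tendsto' h2 h1
    have h4 := le_antisymm h3 (abs_nonneg _)
    exact sub_eq_zero.mp (abs_eq_zero.mp h4)
  have hspec := Nat.find_spec hex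
  have hmin := fun l (hl : l < Nat.find hex) => Nat.find_min hex hl
  set K := Nat.find hex with hK
  have hjK : j < K := by
    by_contra hc
    push Not at hc
    exact hspec (fl_le_eq hc h0)
  obtain ⟨k, hk⟩ : ∃ k, K = k + 1 := ⟨K - 1, by omega⟩
  have h5 : fl k u = fl k v := by
    have := hmin k (by omega)
    push Not at this
    exact this
  refine ⟨k, by omega, h5, ?_⟩
  intro h6
  apply hspec
  rw [hk, fl_succ, fl_succ, h5, h6]

/-! ### The jumps -/

/-- The jumps. -/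
noncomputable def gam (k : ℕ) : ℝ := (1 / 2 : ℝ) ^ ((k + 1) ^ 2)

theorem gam_pos (k : ℕ) : 0 < gam k := by
  unfold gam
  positivity

theorem gam_add (k l : ℕ) : gam (l + k) ≤ gam k * (1 / 2) ^ l := by
  unfold gam
  rw [← pow_add]
  apply pow_le_pow_of_le_one (by norm_num) (by norm_num)
  nlinarith [Nat.zero_le l, Nat.zero_le k, Nat.zero_le (l * k), sq_nonneg l]

theorem gam_succ (k : ℕ) : gam (k + 1) ≤ gam k * (1 / 8) := by
  unfold gam
  have h1 : (1 / 8 : ℝ) = (1 / 2) ^ 3 := by norm_num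
  rw [h1, ← pow_add]
  apply pow_le_pow_of_le_one (by norm_num) (by norm_num)
  nlinarith [Nat.zero_le k]

theorem two_gam (k : ℕ) : 2 * gam k ≤ w k := by
  unfold gam w
  have h1 : (1 / 2 : ℝ) ^ ((k + 1) ^ 2) ≤ (1 / 2) ^ (k ^ 2 + 1) := by
    apply pow_le_pow_of_le_one (by norm_num) (by norm_num)
    nlinarith [Nat.zero_le k]
  have h2 : (1 / 2 : ℝ) ^ (k ^ 2 + 1) = (1 / 2) ^ (k ^ 2) * (1 / 2) := pow_succ _ _
  linarith

theorem summable_gam : Summable gam := by
  refine Summable.of_nonneg_of_le (fun k => (gam_pos k).le) (fun k => ?_)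
    ((summable_geometric_of_lt_one (by norm_num) (by norm_num : (1 / 2 : ℝ) < 1)).mul_left (gam 0))
  exact gam_add 0 k

theorem tail_gam (k : ℕ) : ∑' l, gam (l + k) ≤ 2 * gam k := by
  have h1 : HasSum (fun l : ℕ => gam k * (1 / 2 : ℝ) ^ l) (gam k * (1 - 1 / 2)⁻¹) :=
    (hasSum_geometric_of_lt_one (by norm_num) (by norm_num)).mul_left _
  have h2 : ∑' l, gam (l + k) ≤ ∑' l, gam k * (1 / 2 : ℝ) ^ l :=
    ((summable_nat_add_iff k).2 summable_gam).tsum_le_tsum (fun l => gam_add k l) h1.summable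
  rw [h1.tsum_eq] at h2
  have h3 : gam k * (1 - 1 / 2)⁻¹ = 2 * gam k := by norm_num; ring
  linarith

/-- The strictly increasing jump function. -/
noncomputable def g (v : ℝ) : ℝ := 2 * fl 0 v + ∑' k, (dg k v : ℝ) * gam k

theorem dgr (v : ℝ) (k : ℕ) : 0 ≤ (dg k v : ℝ) ∧ (dg k v : ℝ) ≤ 1 := by
  have h := dg_range k v
  exact ⟨by exact_mod_cast h.1, by exact_mod_cast h.2⟩

theorem gsum_range (v : ℝ) : 0 ≤ ∑' k, (dg k v : ℝ) * gam k ∧ ∑' k, (dg k v : ℝ) * gam k ≤ 1 := by
  constructor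
  · exact tsum_nonneg fun k => mul_nonneg (dgr v k).1 (gam_pos k).le
  · have h1 : ∑' k, (dg k v : ℝ) * gam k ≤ ∑' k, gam (k + 0) := by
      refine Summable.tsum_le_tsum (fun k => ?_) ?_ summable_gam
      · exact mul_le_of_le_one_left (gam_pos k).le (dgr v k).2
      · refine Summable.of_nonneg_of_le (fun k => mul_nonneg (dgr v k).1 (gam_pos k).le)
          (fun k => ?_) summable_gam
        exact mul_le_of_le_one_left (gam_pos k).le (dgr v k).2
    have h2 := tail_gam 0
    have h3 : gam 0 = 1 / 2 := by unfold gam; norm_num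
    rw [h3] at h2
    linarith

theorem g_near {k : ℕ} {u v : ℝ} (h : fl k u = fl k v) : |g u - g v| ≤ 2 * gam k := by
  have h1 := wsum_split summable_gam (fun t => (gam_pos t).le) (a := fun t => (dg t u : ℝ))
    (b := fun t => (dg t v : ℝ)) (dgr u) (dgr v) k
  have h2 : ∑ t ∈ Finset.range k, ((dg t u : ℝ) - (dg t v : ℝ)) * gam t = 0 := by
    apply Finset.sum_eq_zero
    intro t ht
    have ht' := Finset.mem_range.1 ht
    have h3 : dg t u = dg t v := by
      unfold dg
      rw [fl_le_eq ht'.le h, fl_le_eq (Nat.succ_le_of_lt ht') h]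
    rw [h3, sub_self, zero_mul]
  rw [h2, sub_zero] at h1
  have h4 : g u - g v = (∑' t, (dg t u : ℝ) * gam t) - ∑' t, (dg t v : ℝ) * gam t := by
    unfold g
    rw [fl_le_eq (Nat.zero_le k) h]
    ring
  rw [h4]
  exact h1.trans (tail_gam k)

theorem g_strictMono : StrictMono g := by
  intro u v huv
  rcases (fl_mono 0 huv.le).lt_or_eq with h | h
  · have h1 := gsum_range u
    have h2 := gsum_range v
    have h3 : (fl 0 u : ℝ) + 1 ≤ fl 0 v := by exact_mod_cast h
    unfold g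
    linarith [h1.2, h2.1]
  · obtain ⟨k, -, hk1, hk2⟩ := exists_first h huv.ne
    have h1 := wsum_split summable_gam (fun t => (gam_pos t).le) (a := fun t => (dg t v : ℝ))
      (b := fun t => (dg t u : ℝ)) (dgr v) (dgr u) (k + 1)
    have h2 : ∑ t ∈ Finset.range (k + 1), ((dg t v : ℝ) - (dg t u : ℝ)) * gam t = gam k := by
      rw [Finset.sum_range_succ, Finset.sum_eq_zero, zero_add]
      · have h3 := dg_range k u
        have h4 := dg_range k v
        have h5 : fl (k + 1) u ≤ fl (k + 1) v := fl_mono _ huv.le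
        rw [fl_succ, fl_succ, hk1] at h5
        have h6 : dg k u = 0 := by omega
        have h7 : dg k v = 1 := by omega
        rw [h6, h7]
        norm_num
      · intro t ht
        have ht' := Finset.mem_range.1 ht
        have h3 : dg t u = dg t v := by
          unfold dg
          rw [fl_le_eq ht'.le hk1, fl_le_eq (Nat.succ_le_of_lt ht') hk1]
        rw [h3, sub_self, zero_mul]
    rw [h2] at h1
    have h3 := tail_gam (k + 1)
    have h4 := gam_succ k
    have h5 := gam_pos k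
    have h6 : g v - g u = (∑' t, (dg t v : ℝ) * gam t) - ∑' t, (dg t u : ℝ) * gam t := by
      unfold g
      rw [h]
      ring
    have h7 := (abs_le.1 h1).1
    linarith

theorem g_bounds (v : ℝ) : 2 * v - 2 < g v ∧ g v ≤ 2 * v + 1 := by
  have h1 := gsum_range v
  have h2 : (fl 0 v : ℝ) ≤ v := by
    unfold fl
    have := Int.floor_le ((2 : ℝ) ^ 0 * v)
    simpa using this
  have h3 : v < (fl 0 v : ℝ) + 1 := by
    unfold fl
    have := Int.lt_floor_add_one ((2 : ℝ) ^ 0 * v)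
    simpa using this
  unfold g
  constructor <;> linarith [h1.1, h1.2]

/-- The continuous staircase. -/
noncomputable def h (u : ℝ) : ℝ := sSup {v : ℝ | g v ≤ u}

theorem h_bdd (u : ℝ) : BddAbove {v : ℝ | g v ≤ u} := by
  refine ⟨(u + 2) / 2, fun v hv => ?_⟩
  have h1 := (g_bounds v).1
  have h2 : g v ≤ u := hv
  linarith

theorem h_ne (u : ℝ) : {v : ℝ | g v ≤ u}.Nonempty := by
  refine ⟨(u - 1) / 2, ?_⟩
  have h1 := (g_bounds ((u - 1) / 2)).2
  show g ((u - 1) / 2) ≤ u
  linarith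

theorem h_mono : Monotone h := by
  intro u u' huu'
  exact csSup_le_csSup (h_bdd u') (h_ne u) fun v hv => le_trans hv huu'

theorem h_g (v : ℝ) : h (g v) = v := by
  unfold h
  have h1 : {v' : ℝ | g v' ≤ g v} = Iic v := by
    ext v'
    exact g_strictMono.le_iff_le
  rw [h1, csSup_Iic]

theorem h_cont : Continuous h := h_mono.continuous_of_surjective fun v => ⟨g v, h_g v⟩

/-- The thin set. -/
def NN : Set ℝ := closure (range g)

theorem h_const {u : ℝ} (hu : u ∉ NN) : ∃ ε > 0, ∀ u', |u' - u| < ε → h u' = h u := by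
  unfold NN at hu
  rw [Metric.mem_closure_iff] at hu
  push Not at hu
  obtain ⟨ε, hε, h1⟩ := hu
  refine ⟨ε, hε, fun u' hu' => ?_⟩
  unfold h
  congr 1
  ext v
  have h2 := h1 (g v) ⟨v, rfl⟩
  rw [Real.dist_eq] at h2
  rw [abs_lt] at hu'
  simp only [mem_ofPred_eq]
  rcases le_abs'.1 h2 with h3 | h3
  · constructor <;> intro h4 <;> linarith [hu'.1, hu'.2]
  · constructor <;> intro h4 <;> linarith [hu'.1, hu'.2]

theorem fl_int (k : ℕ) (a : ℤ) : fl k (a : ℝ) = 2 ^ k * a := by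
  unfold fl
  have : (2 : ℝ) ^ k * (a : ℝ) = (((2 : ℤ) ^ k * a : ℤ) : ℝ) := by push_cast; ring
  rw [this, Int.floor_intCast]

theorem g_int (a : ℤ) : g (a : ℝ) = 2 * a := by
  unfold g
  have h1 : ∀ k, dg k (a : ℝ) = 0 := by
    intro k
    unfold dg
    rw [fl_int, fl_int, pow_succ]
    ring
  simp only [h1, Int.cast_zero, zero_mul, tsum_zero, add_zero]
  rw [fl_int]
  push_cast
  ring

/-- The staircase from `0` (on the left of `-1`) to `1` (on the right of `1`). -/
noncomputable def H (t : ℝ) : ℝ := max 0 (min 1 (h (t + 1)))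

theorem H_cont : Continuous H := by
  unfold H
  exact continuous_const.max (continuous_const.min (h_cont.comp (continuous_id.add continuous_const)))

theorem H_range (t : ℝ) : 0 ≤ H t ∧ H t ≤ 1 :=
  ⟨le_max_left _ _, max_le zero_le_one (min_le_left _ _)⟩

theorem H_left {t : ℝ} (ht : t ≤ -1) : H t = 0 := by
  have h1 : h (t + 1) ≤ h (g ((0 : ℤ) : ℝ)) := h_mono (by rw [g_int]; push_cast; linarith)
  rw [h_g, Int.cast_zero] at h1
  unfold H
  rw [max_eq_left]
  exact (min_le_right _ _).trans h1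

theorem H_right {t : ℝ} (ht : 1 ≤ t) : H t = 1 := by
  have h1 : h (g ((1 : ℤ) : ℝ)) ≤ h (t + 1) := h_mono (by rw [g_int]; push_cast; linarith)
  rw [h_g, Int.cast_one] at h1
  unfold H
  rw [min_eq_left h1, max_eq_right zero_le_one]

theorem H_const {t : ℝ} (ht : t + 1 ∉ NN) : ∃ ε > 0, ∀ t', |t' - t| < ε → H t' = H t := by
  obtain ⟨ε, hε, h1⟩ := h_const ht
  refine ⟨ε, hε, fun t' ht' => ?_⟩
  unfold H
  rw [h1 (t' + 1) (by rw [show t' + 1 - (t + 1) = t' - t by ring]; exact ht')]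

/-! ### Thin sets -/

theorem thin_NN {α β : ℝ} (hα : α ≠ 0) (hα1 : |α| ≤ 1) :
    Thin (fun _ => {u : ℝ | ∃ s ∈ NN, u = α * s + β}) := by
  classical
  intro R
  have hα0 : 0 < |α| := abs_pos.2 hα
  obtain ⟨R', hR'⟩ := exists_nat_ge ((R + |β|) / |α|)
  refine ⟨2 * R' + 7, by omega, fun k => ?_⟩
  refine ⟨(Finset.Icc (-(((R' + 3) * 2 ^ k : ℕ) : ℤ)) (((R' + 3) * 2 ^ k : ℕ) : ℤ)).image
    (fun p : ℤ => α * g ((p : ℝ) / 2 ^ k) + β), ?_, ?_⟩
  · refine Finset.card_image_le.trans ?_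
    rw [Int.card_Icc]
    have h1 : ((((R' + 3) * 2 ^ k : ℕ) : ℤ) + 1 - -(((R' + 3) * 2 ^ k : ℕ) : ℤ)).toNat =
        2 * ((R' + 3) * 2 ^ k) + 1 := by omega
    rw [h1]
    have h2 : 1 ≤ 2 ^ k := Nat.one_le_two_pow
    nlinarith
  · rintro u ⟨s, hs, rfl⟩ hu
    have hs1 : |s| ≤ R' := by
      refine le_trans ?_ hR'
      rw [le_div_iff₀ hα0, ← abs_mul]
      have h1 : s * α = (α * s + β) - β := by ring
      rw [h1]
      refine (abs_sub _ _).trans ?_
      linarith
    obtain ⟨_, ⟨v, rfl⟩, hv⟩ := Metric.mem_closure_iff.1 hs (w k) (w_pos k)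
    rw [Real.dist_eq] at hv
    have hw1 : w k ≤ 1 := by
      unfold w
      exact pow_le_one₀ (by norm_num) (by norm_num)
    have hgv : |g v| ≤ R' + 1 := by
      have h1 : |g v| ≤ |s| + |s - g v| := by
        have h2 : g v = s - (s - g v) := by ring
        calc |g v| = |s - (s - g v)| := by rw [← h2]
          _ ≤ |s| + |s - g v| := abs_sub _ _
      linarith
    have hvb := g_bounds v
    rw [abs_le] at hgv
    have h2k : (0 : ℝ) < 2 ^ k := by positivity
    have h2k1 : (1 : ℝ) ≤ 2 ^ k := one_le_pow₀ (by norm_num)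
    set p : ℤ := fl k v with hp
    have hp1 : (p : ℝ) ≤ 2 ^ k * v := Int.floor_le _
    have hp2 : 2 ^ k * v < (p : ℝ) + 1 := Int.lt_floor_add_one _
    have hp3 : (p : ℝ) ≤ (R' + 3) * 2 ^ k := by nlinarith [hvb.1, hgv.2]
    have hp4 : -((R' + 3) * 2 ^ k) ≤ (p : ℝ) := by nlinarith [hvb.2, hgv.1]
    refine ⟨α * g ((p : ℝ) / 2 ^ k) + β, Finset.mem_image.2 ⟨p, ?_, rfl⟩, ?_⟩
    · rw [Finset.mem_Icc]
      constructor
      · have : (-(((R' + 3) * 2 ^ k : ℕ) : ℤ) : ℝ) ≤ (p : ℝ) := by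
          push_cast
          linarith
        exact_mod_cast this
      · have : (p : ℝ) ≤ ((((R' + 3) * 2 ^ k : ℕ) : ℤ) : ℝ) := by
          push_cast
          linarith
        exact_mod_cast this
    · have h5 : fl k v = fl k ((p : ℝ) / 2 ^ k) := by
        have : fl k ((p : ℝ) / 2 ^ k) = p := by
          unfold fl
          rw [mul_div_cancel₀ _ h2k.ne', Int.floor_intCast]
        rw [this]
      have h6 := g_near h5
      have h7 := two_gam k
      have h8 : (α * s + β) - (α * g ((p : ℝ) / 2 ^ k) + β) =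
          α * ((s - g v) + (g v - g ((p : ℝ) / 2 ^ k))) := by ring
      rw [h8, abs_mul]
      have h9 : |(s - g v) + (g v - g ((p : ℝ) / 2 ^ k))| ≤ 2 * w k := by
        refine (abs_add_le _ _).trans ?_
        linarith
      have hw := w_pos k
      calc |α| * |(s - g v) + (g v - g ((p : ℝ) / 2 ^ k))| ≤ 1 * (2 * w k) :=
            mul_le_mul hα1 h9 (abs_nonneg _) zero_le_one
        _ ≤ ((2 * R' + 7 : ℕ) : ℝ) * w k := by
            push_cast
            nlinarith [Nat.cast_nonneg (α := ℝ) R']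

theorem thin_grid : Thin (fun k => {u : ℝ | ∃ m : ℤ, |u - m / 2 ^ (k + 1)| < gam k}) := by
  classical
  intro R
  refine ⟨4 * R + 5, by omega, fun k => ?_⟩
  refine ⟨(Finset.Icc (-(((R + 1) * 2 ^ (k + 1) : ℕ) : ℤ)) (((R + 1) * 2 ^ (k + 1) : ℕ) : ℤ)).image
    (fun p : ℤ => (p : ℝ) / 2 ^ (k + 1)), ?_, ?_⟩
  · refine Finset.card_image_le.trans ?_
    rw [Int.card_Icc]
    have h1 : ((((R + 1) * 2 ^ (k + 1) : ℕ) : ℤ) + 1 - -(((R + 1) * 2 ^ (k + 1) : ℕ) : ℤ)).toNat =
        2 * ((R + 1) * 2 ^ (k + 1)) + 1 := by omega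
    rw [h1, pow_succ]
    have h2 : 1 ≤ 2 ^ k := Nat.one_le_two_pow
    nlinarith
  · rintro u ⟨m, hm⟩ hu
    have h2k : (0 : ℝ) < 2 ^ (k + 1) := by positivity
    have hg1 : gam k ≤ 1 := by
      unfold gam
      exact pow_le_one₀ (by norm_num) (by norm_num)
    have h1 : |(m : ℝ) / 2 ^ (k + 1)| ≤ R + 1 := by
      rw [abs_lt] at hm
      rw [abs_le] at hu ⊢
      constructor <;> linarith [hm.1, hm.2, hu.1, hu.2]
    rw [abs_le, div_le_iff₀ h2k, le_div_iff₀ h2k] at h1
    refine ⟨(m : ℝ) / 2 ^ (k + 1), Finset.mem_image.2 ⟨m, ?_, rfl⟩, ?_⟩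
    · rw [Finset.mem_Icc]
      constructor
      · have : (-(((R + 1) * 2 ^ (k + 1) : ℕ) : ℤ) : ℝ) ≤ (m : ℝ) := by
          push_cast
          linarith [h1.1]
        exact_mod_cast this
      · have : (m : ℝ) ≤ ((((R + 1) * 2 ^ (k + 1) : ℕ) : ℤ) : ℝ) := by
          push_cast
          linarith [h1.2]
        exact_mod_cast this
    · have h3 := two_gam k
      have h4 := gam_pos k
      have hw := w_pos k
      refine hm.le.trans ?_
      push_cast
      nlinarith [Nat.cast_nonneg (α := ℝ) R]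

end Pool.Agent.Y497.HD
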