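import Mathlib
import Pool.Agent.Results.MP_2d1133_lc.ContinuousImages

/-!
# Thin sets of real numbers and the Hausdorff dimension of the preimages under coordinates
-/

set_option autoImplicit false

namespace Pool.Agent.Y497.HD

open Set Filter Topology MeasureTheory
open scoped ENNReal NNReal
open Pool.Agent.Results.MP_2d1133_lc.ContinuousImages (hausdorff_zero_of_io summable_main)

/-- Radii. -/
noncomputable def w (k : ℕ) : ℝ := (1 / 2 : ℝ) ^ (k ^ 2)

theorem w_pos (k : ℕ) : 0 < w k := by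
  unfold w
  positivity

theorem w_anti : Antitone w := by
  intro k l hkl
  unfold w
  apply pow_le_pow_of_le_one (by norm_num) (by norm_num)
  exact Nat.pow_le_pow_left hkl 2

theorem w_tendsto : Tendsto w atTop (𝓝 0) := by
  have h3 : Tendsto (fun k : ℕ => (1 / 2 : ℝ) ^ k) atTop (𝓝 0) :=
    tendsto_pow_atTop_nhds_zero_of_lt_one (by norm_num) (by norm_num)
  refine squeeze_zero (fun k => (w_pos k).le) (fun k => ?_) h3
  unfold w
  apply pow_le_pow_of_le_one (by norm_num) (by norm_num)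
  nlinarith [Nat.zero_le k, sq_nonneg k]

/-- A sequence of sets of real numbers whose `k`-th member is covered, in every bounded interval,
by `O(2^k)` intervals of length `O(2^(-k^2))`. -/
def Thin (S : ℕ → Set ℝ) : Prop := ∀ R : ℕ, ∃ A : ℕ, 1 ≤ A ∧ ∀ k : ℕ, ∃ T : Finset ℝ,
  T.card ≤ A * 2 ^ k ∧ ∀ u ∈ S k, |u| ≤ R → ∃ t ∈ T, |u - t| ≤ A * w k

theorem card_ne {n : ℕ} (i : Fin n) : Fintype.card {l : Fin n // l ≠ i} = n - 1 := by
  rw [Fintype.card_subtype_compl]
  simp

theorem dimH_thin {n : ℕ} (i : Fin n) {S : ℕ → Set ℝ} (hS : Thin S) :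
    dimH {x : Fin n → ℝ | ∀ N : ℕ, ∃ k ≥ N, x i ∈ S k} ≤ ((n - 1 : ℕ) : ℝ≥0∞) := by
  classical
  set Z : Set (Fin n → ℝ) := {x : Fin n → ℝ | ∀ N : ℕ, ∃ k ≥ N, x i ∈ S k} with hZdef
  have hZ : Z = ⋃ R : ℕ, Z ∩ {x | ∀ j, |x j| ≤ R} := by
    rw [← inter_iUnion]
    symm
    apply inter_eq_left.mpr
    intro x _
    obtain ⟨R, hR⟩ := exists_nat_ge ‖x‖
    refine mem_iUnion.mpr ⟨R, fun j => ?_⟩
    exact (norm_le_pi_norm x j).trans hR
  rw [hZ, dimH_iUnion]
  apply iSup_le
  intro R
  obtain ⟨A, hA1, hA⟩ := hS R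
  choose T hT1 hT2 using hA
  have hA0 : (1 : ℝ) ≤ A := by exact_mod_cast hA1
  apply dimH_le
  intro d hd
  by_contra hcon
  have hd1 : ((n - 1 : ℕ) : ℝ) < d := by
    rw [not_le] at hcon
    exact_mod_cast hcon
  have hd0 : (0 : ℝ) < d := lt_of_le_of_lt (Nat.cast_nonneg _) hd1
  let M : ℕ → ℤ := fun k => ((R * 2 ^ (k ^ 2) + 1 : ℕ) : ℤ)
  have hzero : μH[d] (Z ∩ {x : Fin n → ℝ | ∀ j, |x j| ≤ R}) = 0 := by
    apply hausdorff_zero_of_io (d : ℝ) hd0 _
      (fun k => (T k) × ({l : Fin n // l ≠ i} → Finset.Icc (-(M k)) (M k)))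
      (fun k c => {x : Fin n → ℝ | |x i - c.1| ≤ A * w k ∧
        ∀ l (hl : l ≠ i), |x l - ((c.2 ⟨l, hl⟩ : ℤ) : ℝ) * w k| ≤ w k})
      (fun k => ENNReal.ofReal (2 * A * w k))
    · have h2 := ENNReal.tendsto_ofReal (w_tendsto.const_mul (2 * (A : ℝ)))
      simpa using h2
    · intro k l hkl
      apply ENNReal.ofReal_le_ofReal
      exact mul_le_mul_of_nonneg_left (w_anti hkl) (by positivity)
    · intro k c
      apply Metric.ediam_le
      rintro x ⟨hx1, hx2⟩ y ⟨hy1, hy2⟩
      rw [edist_dist]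
      apply ENNReal.ofReal_le_ofReal
      have hw := w_pos k
      rw [dist_pi_le_iff (by positivity)]
      intro l
      rw [Real.dist_eq]
      by_cases hl : l = i
      · subst hl
        rw [abs_le] at *
        constructor <;> linarith [hx1.1, hx1.2, hy1.1, hy1.2]
      · have h1 := hx2 l hl
        have h2 := hy2 l hl
        rw [abs_le] at *
        constructor <;> nlinarith [h1.1, h1.2, h2.1, h2.2]
    · rintro x ⟨hx1, hx2⟩ N
      obtain ⟨k, hk, hm⟩ := hx1 N
      have hw := w_pos k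
      obtain ⟨t, ht, htx⟩ := hT2 k (x i) hm (hx2 i)
      have hr : ∀ l, round (x l / w k) ∈ Finset.Icc (-(M k)) (M k) := by
        intro l
        rw [Finset.mem_Icc]
        have hr2 : |((round (x l / w k) : ℤ) : ℝ)| ≤ R * 2 ^ (k ^ 2) + 1 := by
          have h1 := abs_sub_round (x l / w k)
          have h2 : |x l / w k| ≤ R * 2 ^ (k ^ 2) := by
            rw [abs_div, abs_of_pos hw, div_le_iff₀ hw]
            have h3 : (R : ℝ) * 2 ^ (k ^ 2) * w k = R := by
              unfold w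
              rw [mul_assoc, ← mul_pow]
              norm_num
            rw [h3]
            exact hx2 l
          rw [abs_le] at *
          constructor <;> linarith [h1.1, h1.2, h2.1, h2.2]
        have e2 : ((R * 2 ^ (k ^ 2) + 1 : ℕ) : ℝ) = R * 2 ^ (k ^ 2) + 1 := by push_cast; ring
        rw [← e2, abs_le] at hr2
        constructor
        · have := hr2.1
          show -(((R * 2 ^ (k ^ 2) + 1 : ℕ) : ℤ)) ≤ _
          exact_mod_cast this
        · have := hr2.2
          show _ ≤ (((R * 2 ^ (k ^ 2) + 1 : ℕ) : ℤ))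
          exact_mod_cast this
      refine ⟨k, hk, ⟨⟨t, ht⟩, fun l => ⟨round (x l / w k), hr l⟩⟩, htx, ?_⟩
      intro l _
      have h1 := abs_sub_round (x l / w k)
      have h2 : x l - (round (x l / w k) : ℤ) * w k =
          (x l / w k - (round (x l / w k) : ℤ)) * w k := by
        field_simp
      change |x l - (round (x l / w k) : ℤ) * w k| ≤ w k
      rw [h2, abs_mul, abs_of_pos hw]
      nlinarith
    · have hs := (summable_main ((d : ℝ) - (n - 1 : ℕ)) (by linarith)).mul_left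
        ((A : ℝ) * (2 * R + 3) ^ (n - 1) * (2 * A : ℝ) ^ (d : ℝ))
      have hb : ∀ k : ℕ, (Fintype.card ((T k) × ({l : Fin n // l ≠ i} →
          Finset.Icc (-(M k)) (M k))) : ℝ≥0∞) * ENNReal.ofReal (2 * A * w k) ^ (d : ℝ) ≤
          ENNReal.ofReal ((A : ℝ) * (2 * R + 3) ^ (n - 1) * (2 * A : ℝ) ^ (d : ℝ) *
            (2 : ℝ) ^ ((k : ℝ) - ((d : ℝ) - (n - 1 : ℕ)) * (k : ℝ) ^ 2)) := by
        intro k
        have hw := w_pos k
        have hcard : ((Fintype.card ((T k) × ({l : Fin n // l ≠ i} →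
            Finset.Icc (-(M k)) (M k))) : ℕ) : ℝ) ≤
            (A * 2 ^ k) * ((2 * R + 3) * 2 ^ (k ^ 2)) ^ (n - 1) := by
          have h1 : Fintype.card ((T k) × ({l : Fin n // l ≠ i} →
              Finset.Icc (-(M k)) (M k))) = (T k).card *
                (2 * (R * 2 ^ (k ^ 2) + 1) + 1) ^ (n - 1) := by
            rw [Fintype.card_prod, Fintype.card_coe, Fintype.card_fun, Fintype.card_coe,
              Int.card_Icc, card_ne]
            congr 2
            show (((R * 2 ^ (k ^ 2) + 1 : ℕ) : ℤ) + 1 - -((R * 2 ^ (k ^ 2) + 1 : ℕ) : ℤ)).toNat = _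
            omega
          rw [h1]
          push_cast
          have h2 : ((T k).card : ℝ) ≤ A * 2 ^ k := by exact_mod_cast hT1 k
          have h3 : (1 : ℝ) ≤ 2 ^ (k ^ 2) := one_le_pow₀ (by norm_num)
          apply mul_le_mul h2 _ (by positivity) (by positivity)
          apply pow_le_pow_left₀ (by positivity)
          nlinarith
        rw [ENNReal.ofReal_rpow_of_nonneg (by positivity) (by linarith),
          ← ENNReal.ofReal_natCast, ← ENNReal.ofReal_mul (Nat.cast_nonneg _)]
        apply ENNReal.ofReal_le_ofReal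
        rw [Real.mul_rpow (by positivity) hw.le]
        have h2 : w k ^ (d : ℝ) = (2 : ℝ) ^ (-((d : ℝ) * (k : ℝ) ^ 2)) := by
          unfold w
          rw [one_div, inv_pow, ← Real.rpow_natCast, ← Real.rpow_neg (by norm_num),
            ← Real.rpow_mul (by norm_num)]
          congr 1
          push_cast
          ring
        have h3 : (2 : ℝ) ^ k * (2 ^ (k ^ 2)) ^ (n - 1) * (2 : ℝ) ^ (-((d : ℝ) * (k : ℝ) ^ 2)) =
            (2 : ℝ) ^ ((k : ℝ) - ((d : ℝ) - (n - 1 : ℕ)) * (k : ℝ) ^ 2) := by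
          rw [← pow_mul, ← Real.rpow_natCast 2 k, ← Real.rpow_natCast 2 (k ^ 2 * (n - 1)),
            ← Real.rpow_add (by norm_num), ← Real.rpow_add (by norm_num)]
          congr 1
          push_cast
          ring
        rw [h2, ← h3]
        calc _ ≤ ((A * 2 ^ k) * ((2 * R + 3) * 2 ^ (k ^ 2)) ^ (n - 1)) *
              ((2 * A : ℝ) ^ (d : ℝ) * (2 : ℝ) ^ (-((d : ℝ) * (k : ℝ) ^ 2))) := by
              apply mul_le_mul_of_nonneg_right hcard
              positivity
          _ = _ := by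
            rw [mul_pow]
            ring
      refine ne_top_of_le_ne_top ?_ (ENNReal.tsum_le_tsum hb)
      rw [← ENNReal.ofReal_tsum_of_nonneg (fun k => by positivity) hs]
      exact ENNReal.ofReal_ne_top
  rw [hzero] at hd
  exact ENNReal.zero_ne_top hd

end Pool.Agent.Y497.HD
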